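import Mathlib

set_option autoImplicit false

/-!
# A monotone separation of pairs of disjoint sets by ambiguous sets

For a pair `A, B` of subsets of a space the closed sets `P η` are defined by transfinite recursion,
`P (η + 1) = closure (P η ∩ A) ∩ closure (P η ∩ B)`.  The whole history of this derivation is coded
by a point of a compact space, and `S A B` is the set of all codes that lie below it in the
lexicographic sense.
-/

open Set Topology Filter

namespace Pool.Agent.Q302.B1

section deriv

variable {X : Type} [TopologicalSpace X]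

/-- the derivative of a closed set with respect to a pair of sets -/
def D (A B F : Set X) : Set X := closure (F ∩ A) ∩ closure (F ∩ B)

/-- the iterated derivatives of the whole space -/
noncomputable def P (A B : Set X) (η : Ordinal.{0}) : Set X :=
  ⋂ ζ : Set.Iio η, D A B (P A B ζ.1)
termination_by η
decreasing_by exact ζ.2

theorem mem_P {A B : Set X} {η : Ordinal.{0}} {x : X} :
    x ∈ P A B η ↔ ∀ ζ < η, x ∈ D A B (P A B ζ) := by
  rw [P]
  simp

theorem isClosed_D {A B F : Set X} : IsClosed (D A B F) :=
  isClosed_closure.inter isClosed_closure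

theorem D_subset {A B F : Set X} (hF : IsClosed F) : D A B F ⊆ F :=
  inter_subset_left.trans (closure_minimal inter_subset_left hF)

theorem isClosed_P {A B : Set X} (η : Ordinal.{0}) : IsClosed (P A B η) := by
  rw [P]
  exact isClosed_iInter fun _ => isClosed_D

theorem P_anti {A B : Set X} {ζ η : Ordinal.{0}} (h : ζ ≤ η) : P A B η ⊆ P A B ζ := by
  intro x hx
  rw [mem_P] at hx ⊢
  exact fun ξ hξ => hx ξ (hξ.trans_le h)

theorem P_succ {A B : Set X} (η : Ordinal.{0}) : P A B (η + 1) = D A B (P A B η) := by
  apply Subset.antisymm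
  · intro x hx
    rw [mem_P] at hx
    exact hx η (Order.lt_add_one_iff.2 le_rfl)
  · intro x hx
    rw [mem_P]
    intro ζ hζ
    rcases (Order.lt_add_one_iff.1 hζ).eq_or_lt with rfl | h
    · exact hx
    · exact mem_P.1 (D_subset (isClosed_P _) hx) ζ h

/-- no nonempty closed set in which both sets are dense -/
def Star (A B : Set X) : Prop :=
  ∀ F : Set X, IsClosed F → F ⊆ closure (F ∩ A) → F ⊆ closure (F ∩ B) → F = ∅

theorem P_drop {A B : Set X} (hs : Star A B) {η : Ordinal.{0}} (h : (P A B η).Nonempty) :
    ¬ P A B η ⊆ P A B (η + 1) := by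
  intro hsub
  rw [P_succ] at hsub
  have := hs _ (isClosed_P η) (hsub.trans inter_subset_left) (hsub.trans inter_subset_right)
  exact h.ne_empty this

theorem exists_empty {A B : Set X} (hs : Star A B) : ∃ η, P A B η = ∅ := by
  by_contra hcon
  push Not at hcon
  apply not_injective_of_ordinal (P A B)
  have key : ∀ ζ η : Ordinal.{0}, ζ < η → P A B ζ ≠ P A B η := by
    intro ζ η h he
    refine P_drop hs (hcon ζ) ?_
    rw [he]
    exact P_anti (Order.add_one_le_iff.2 h)
  intro ζ η h
  rcases lt_trichotomy ζ η with h1 | h1 | h1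
  · exact absurd h (key _ _ h1)
  · exact h1
  · exact absurd h.symm (key _ _ h1)

end deriv

/-! ### Records -/

/-- a record: four sets of natural numbers -/
abbrev Rec := Fin 4 → ℕ → Bool

/-- the strict order of records (the first component is the same, the second one smaller,
the third one larger) -/
def Le (s r : Rec) : Prop :=
  s 0 = r 0 ∧ (∀ m, s 1 m = true → r 1 m = true) ∧ (∀ m, r 2 m = true → s 2 m = true)

def Eq12 (s r : Rec) : Prop := s 1 = r 1 ∧ s 2 = r 2

def TypeI (r : Rec) : Prop := ∃ n, r 0 n = true ∧ r 1 n = false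

def TypeII (r : Rec) : Prop := ∃ n, r 0 n = true ∧ r 2 n = false

open Classical in
/-- the leader of a record -/
noncomputable def lead (r : Rec) : ℕ :=
  if h : TypeI r then h.choose else if h' : TypeII r then h'.choose else 0

theorem lead_I {r : Rec} (h : TypeI r) : r 0 (lead r) = true ∧ r 1 (lead r) = false := by
  unfold lead
  rw [dif_pos h]
  exact h.choose_spec

theorem lead_II {r : Rec} (h : ¬ TypeI r) (h' : TypeII r) :
    r 0 (lead r) = true ∧ r 2 (lead r) = false := by
  unfold lead
  rw [dif_neg h, dif_pos h']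
  exact h'.choose_spec

/-- the membership rule at the first disagreement -/
def J (r s : Rec) : Prop := (TypeI r ∧ Le s r ∧ ¬ Eq12 s r) ∨ (¬ TypeI r ∧ ¬ Le r s)

theorem Le.refl (r : Rec) : Le r r := ⟨rfl, fun _ h => h, fun _ h => h⟩

theorem Le.trans {r s t : Rec} (h : Le r s) (h' : Le s t) : Le r t :=
  ⟨h.1.trans h'.1, fun m hm => h'.2.1 m (h.2.1 m hm), fun m hm => h.2.2 m (h'.2.2 m hm)⟩

theorem Le.antisymm12 {r s : Rec} (h : Le r s) (h' : Le s r) : Eq12 r s := by
  constructor
  · funext m
    have h1 := h.2.1 m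
    have h2 := h'.2.1 m
    cases hr : r 1 m <;> cases hs : s 1 m <;> simp_all
  · funext m
    have h1 := h.2.2 m
    have h2 := h'.2.2 m
    cases hr : r 2 m <;> cases hs : s 2 m <;> simp_all

theorem J_ne {r s : Rec} (h : J r s) : s ≠ r := by
  rintro rfl
  rcases h with h | h
  · exact h.2.2 ⟨rfl, rfl⟩
  · exact h.2 (Le.refl _)

/-- the compact space of all codes -/
abbrev W := ℕ → Rec

/-- the consistent codes -/
def Z : Set W := {z |
  (∀ n m, z n 0 n = true → z n 3 n = false → z n 0 m = true → z n 3 m = false → z m = z n) ∧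
  (∀ n m, z n 0 n = true → z n 3 n = false → z m 0 m = true → z m 3 m = false →
    z n 3 m = true → z m 0 n = false) ∧
  (∀ n m, z n 3 m = true → z n 1 m = true ∧ z n 2 m = true)}

/-- records of actual stages -/
def Good (r : Rec) : Prop := TypeI r ∨ TypeII r

theorem key {z : W} (hz : z ∈ Z) {r r' : Rec} (hr : Good r) (hr' : Good r')
    (hlt : Le r r') (hne : ¬ Eq12 r r') (h : z (lead r) = r ∨ J r (z (lead r))) :
    J r' (z (lead r')) := by
  obtain ⟨hz1, hz2, hz3⟩ := hz
  by_cases hI' : TypeI r'
  · left
    refine ⟨hI', ?_⟩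
    obtain ⟨h0', h1'⟩ := lead_I hI'
    have hI : TypeI r := by
      refine ⟨lead r', by rw [hlt.1]; exact h0', ?_⟩
      by_contra hc
      have := hlt.2.1 _ (by simpa using hc)
      simp [h1'] at this
    obtain ⟨h0, h1⟩ := lead_I hI
    have hle : Le (z (lead r)) r := by
      rcases h with h | h
      · rw [h]; exact Le.refl _
      · rcases h with h | h
        · exact h.2.1
        · exact absurd hI h.1
    set n := lead r with hn
    set n' := lead r' with hn'
    -- n is valid
    have v0 : z n 0 n = true := by rw [hle.1]; exact h0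
    have v1 : z n 1 n = false := by
      by_contra hc
      have := hle.2.1 _ (by simpa using hc)
      simp [h1] at this
    have v3 : z n 3 n = false := by
      by_contra hc
      have := (hz3 n n (by simpa using hc)).1
      simp [v1] at this
    have w0 : z n 0 n' = true := by rw [hle.1, hlt.1]; exact h0'
    have w1 : z n 1 n' = false := by
      by_contra hc
      have := hlt.2.1 _ (hle.2.1 _ (by simpa using hc))
      simp [h1'] at this
    have w3 : z n 3 n' = false := by
      by_contra hc
      have := (hz3 n n' (by simpa using hc)).1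
      simp [w1] at this
    have e := hz1 n n' v0 v3 w0 w3
    rw [e]
    refine ⟨hle.trans hlt, ?_⟩
    intro heq
    -- then r and r' agree
    apply hne
    have h2 : Le r' r := by
      refine ⟨hlt.1.symm, fun m hm => ?_, fun m hm => ?_⟩
      · rw [← heq.1] at hm
        exact hle.2.1 m hm
      · rw [← heq.2]
        exact hle.2.2 m hm
    exact hlt.antisymm12 h2
  · right
    refine ⟨hI', ?_⟩
    intro hle'
    have hII' : TypeII r' := hr'.resolve_left hI'
    obtain ⟨h0', h2'⟩ := lead_II hI' hII'
    set n' := lead r' with hn'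
    set s' := z n' with hs'
    have v0' : s' 0 n' = true := by rw [← hle'.1]; exact h0'
    have v2' : s' 2 n' = false := by
      by_contra hc
      have := hle'.2.2 _ (by simpa using hc)
      simp [h2'] at this
    have v3' : s' 3 n' = false := by
      by_contra hc
      have := (hz3 n' n' (by simpa using hc)).2
      rw [← hs', v2'] at this
      simp at this
    by_cases hI : TypeI r
    · obtain ⟨h0, h1⟩ := lead_I hI
      have hle : Le (z (lead r)) r := by
        rcases h with h | h
        · rw [h]; exact Le.refl _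
        · rcases h with h | h
          · exact h.2.1
          · exact absurd hI h.1
      set n := lead r with hn
      have v0 : z n 0 n = true := by rw [hle.1]; exact h0
      have v1 : z n 1 n = false := by
        by_contra hc
        have := hle.2.1 _ (by simpa using hc)
        simp [h1] at this
      have v3 : z n 3 n = false := by
        by_contra hc
        have := (hz3 n n (by simpa using hc)).1
        simp [v1] at this
      have u0 : s' 0 n = true := by rw [← hle'.1, ← hlt.1]; exact h0
      have u3 : s' 3 n = false := by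
        by_contra hc
        have h5 := hz2 n' n v0' v3' v0 v3 (by simpa using hc)
        rw [hle.1, hlt.1, h0'] at h5
        simp at h5
      have e : z n = z n' := hz1 n' n v0' v3' u0 u3
      have h6 : Le r' r := hle'.trans (by rw [hs', ← e]; exact hle)
      exact hne (hlt.antisymm12 h6)
    · have hII : TypeII r := hr.resolve_left hI
      obtain ⟨h0, h2⟩ := lead_II hI hII
      set n := lead r with hn
      have u0 : s' 0 n = true := by rw [← hle'.1, ← hlt.1]; exact h0
      have u2 : s' 2 n = false := by
        by_contra hc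
        have := hlt.2.2 _ (hle'.2.2 _ (by simpa using hc))
        simp [h2] at this
      have u3 : s' 3 n = false := by
        by_contra hc
        have := (hz3 n' n (by simpa using hc)).2
        rw [← hs', u2] at this
        simp at this
      have e : z n = z n' := hz1 n' n v0' v3' u0 u3
      rcases h with h | h
      · have : Le r' r := by rw [← h, e]; exact hle'
        exact hne (hlt.antisymm12 this)
      · rcases h with h | h
        · exact hI h.1
        · exact h.2 (hlt.trans (by rw [e]; exact hle'))

/-! ### Codes of closed sets -/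

section codes

variable {X : Type} [TopologicalSpace X]

open Classical in
/-- the code of a closed set: the basic sets it meets -/
noncomputable def code (U : ℕ → Set X) (F : Set X) : ℕ → Bool := fun n => decide (F ∩ U n).Nonempty

theorem code_iff {U : ℕ → Set X} {F : Set X} {n : ℕ} :
    code U F n = true ↔ (F ∩ U n).Nonempty := by
  simp [code]

theorem code_mono {U : ℕ → Set X} {F F' : Set X} (h : F ⊆ F') (n : ℕ) (hn : code U F n = true) :
    code U F' n = true := by
  rw [code_iff] at hn ⊢
  exact hn.mono (inter_subset_inter_left _ h)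

/-- the sets `U n` form a network for open sets -/
def Net (U : ℕ → Set X) : Prop :=
  ∀ F : Set X, IsClosed F → ∀ x ∉ F, ∃ n, x ∈ U n ∧ Disjoint F (U n)

theorem code_reflect {U : ℕ → Set X} (hU : Net U) {F F' : Set X} (hF' : IsClosed F')
    (h : ∀ n, code U F n = true → code U F' n = true) : F ⊆ F' := by
  intro x hx
  by_contra hcon
  obtain ⟨n, hn, hd⟩ := hU F' hF' x hcon
  have h1 := h n (code_iff.2 ⟨x, hx, hn⟩)
  rw [code_iff] at h1
  exact h1.ne_empty (disjoint_iff_inter_eq_empty.1 hd)

theorem code_inj {U : ℕ → Set X} (hU : Net U) {F F' : Set X} (hF : IsClosed F)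
    (hF' : IsClosed F') (h : code U F = code U F') : F = F' :=
  Subset.antisymm (code_reflect hU hF' fun n hn => by rw [← h]; exact hn)
    (code_reflect hU hF fun n hn => by rw [h]; exact hn)

variable (U : ℕ → Set X) (A B : Set X)

/-- the record of a stage -/
noncomputable def rec (η : Ordinal.{0}) : Rec :=
  ![code U (P A B η), code U (closure (P A B η ∩ A)), code U (closure (P A B η ∩ B)),
    code U (P A B (η + 1))]

theorem rec0 (η : Ordinal.{0}) : rec U A B η 0 = code U (P A B η) := rfl

theorem rec1 (η : Ordinal.{0}) : rec U A B η 1 = code U (closure (P A B η ∩ A)) := rfl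

theorem rec2 (η : Ordinal.{0}) : rec U A B η 2 = code U (closure (P A B η ∩ B)) := rfl

theorem rec3 (η : Ordinal.{0}) : rec U A B η 3 = code U (P A B (η + 1)) := rfl

variable {U A B}

theorem rec_good (hU : Net U) (hs : Star A B) {η : Ordinal.{0}} (h : (P A B η).Nonempty) :
    Good (rec U A B η) := by
  have hd := P_drop hs h
  by_contra hcon
  apply hd
  unfold Good TypeI TypeII at hcon
  push Not at hcon
  obtain ⟨h1, h2⟩ := hcon
  rw [P_succ]
  apply subset_inter
  · apply code_reflect hU isClosed_closure
    intro n hn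
    have := h1 n hn
    rw [rec1] at this
    simpa using this
  · apply code_reflect hU isClosed_closure
    intro n hn
    have := h2 n hn
    rw [rec2] at this
    simpa using this

theorem rec3_imp {η : Ordinal.{0}} {n : ℕ} (h : rec U A B η 3 n = true) :
    rec U A B η 1 n = true ∧ rec U A B η 2 n = true := by
  rw [rec3, P_succ] at h
  exact ⟨code_mono inter_subset_left n h, code_mono inter_subset_right n h⟩

/-- the leader of a stage is dropped exactly at this stage -/
theorem lead_rec (hU : Net U) (hs : Star A B) {η : Ordinal.{0}} (h : (P A B η).Nonempty) :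
    rec U A B η 0 (lead (rec U A B η)) = true ∧ rec U A B η 3 (lead (rec U A B η)) = false := by
  by_cases hI : TypeI (rec U A B η)
  · obtain ⟨h0, h1⟩ := lead_I hI
    refine ⟨h0, ?_⟩
    by_contra hc
    have := (rec3_imp (by simpa using hc)).1
    simp [h1] at this
  · obtain ⟨h0, h1⟩ := lead_II hI ((rec_good hU hs h).resolve_left hI)
    refine ⟨h0, ?_⟩
    by_contra hc
    have := (rec3_imp (by simpa using hc)).2
    simp [h1] at this

theorem stage_unique {η ζ : Ordinal.{0}} {n : ℕ} (h0 : rec U A B η 0 n = true)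
    (h3 : rec U A B η 3 n = false) (h0' : rec U A B ζ 0 n = true)
    (h3' : rec U A B ζ 3 n = false) : η = ζ := by
  have key : ∀ {η ζ : Ordinal.{0}}, rec U A B η 3 n = false → rec U A B ζ 0 n = true →
      ¬ η < ζ := by
    intro η ζ h3 h0' hlt
    rw [rec3] at h3
    rw [rec0] at h0'
    have := code_mono (P_anti (A := A) (B := B) (Order.add_one_le_iff.2 hlt)) n h0'
    rw [h3] at this
    simp at this
  rcases lt_trichotomy η ζ with h | h | h
  · exact absurd h (key h3 h0')
  · exact h
  · exact absurd h (key h3' h0)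

/-- the set attached to a pair -/
def S (U : ℕ → Set X) (A B : Set X) : Set W := {z | z ∈ Z ∧ ∃ η : Ordinal.{0},
  (P A B η).Nonempty ∧ (∀ ζ < η, z (lead (rec U A B ζ)) = rec U A B ζ) ∧
  J (rec U A B η) (z (lead (rec U A B η)))}

theorem P_eq_of_rec (hU : Net U) {A' B' : Set X} {η : Ordinal.{0}}
    (h : ∀ ζ < η, rec U A B ζ = rec U A' B' ζ) : P A B η = P A' B' η := by
  have hsucc : ∀ ζ < η, D A B (P A B ζ) = D A' B' (P A' B' ζ) := by
    intro ζ hζ
    rw [← P_succ, ← P_succ]
    apply code_inj hU (isClosed_P _) (isClosed_P _)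
    rw [← rec3, ← rec3, h ζ hζ]
  ext x
  rw [mem_P, mem_P]
  constructor
  · intro hx ζ hζ
    rw [← hsucc ζ hζ]
    exact hx ζ hζ
  · intro hx ζ hζ
    rw [hsucc ζ hζ]
    exact hx ζ hζ

/-- at the first difference the smaller pair has the smaller record -/
theorem first_diff (hU : Net U) {A' B' : Set X} (hA : A ⊆ A') (hB : B' ⊆ B) {η : Ordinal.{0}}
    (h : ∀ ζ < η, rec U A B ζ = rec U A' B' ζ) (hne : rec U A B η ≠ rec U A' B' η) :
    Le (rec U A B η) (rec U A' B' η) ∧ ¬ Eq12 (rec U A B η) (rec U A' B' η) := by
  have hP := P_eq_of_rec hU h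
  refine ⟨⟨?_, ?_, ?_⟩, ?_⟩
  · rw [rec0, rec0, hP]
  · intro m hm
    rw [rec1] at hm ⊢
    rw [← hP]
    exact code_mono (closure_mono (inter_subset_inter_right _ hA)) m hm
  · intro m hm
    rw [rec2] at hm ⊢
    rw [hP]
    exact code_mono (closure_mono (inter_subset_inter_right _ hB)) m hm
  · rintro ⟨h1, h2⟩
    apply hne
    have e1 := code_inj hU isClosed_closure isClosed_closure h1
    have e2 := code_inj hU isClosed_closure isClosed_closure h2
    have e3 : P A B (η + 1) = P A' B' (η + 1) := by
      rw [P_succ, P_succ]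
      unfold D
      rw [e1, e2]
    funext i
    fin_cases i
    · change code U (P A B η) = code U (P A' B' η)
      rw [hP]
    · exact h1
    · exact h2
    · change code U (P A B (η + 1)) = code U (P A' B' (η + 1))
      rw [e3]

theorem S_mono (hU : Net U) (hs : Star A B) {A' B' : Set X} (hs' : Star A' B') (hA : A ⊆ A')
    (hB : B' ⊆ B) : S U A B ⊆ S U A' B' := by
  rintro z ⟨hz, δ, hδ, hag, hJ⟩
  refine ⟨hz, ?_⟩
  by_cases hall : ∀ ζ ≤ δ, rec U A B ζ = rec U A' B' ζ
  · refine ⟨δ, ?_, ?_, ?_⟩
    · rw [← P_eq_of_rec hU fun ζ hζ => hall ζ hζ.le]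
      exact hδ
    · intro ζ hζ
      rw [← hall ζ hζ.le]
      exact hag ζ hζ
    · rw [← hall δ le_rfl]
      exact hJ
  · push Not at hall
    -- least difference
    have hne : {ζ : Ordinal.{0} | rec U A B ζ ≠ rec U A' B' ζ}.Nonempty := by
      obtain ⟨ζ, _, h⟩ := hall
      exact ⟨ζ, h⟩
    obtain ⟨ζ₀, hζ₀, hζ₀'⟩ := hall
    set η := sInf {ζ : Ordinal.{0} | rec U A B ζ ≠ rec U A' B' ζ} with hη
    have hη1 : rec U A B η ≠ rec U A' B' η := csInf_mem hne
    have hη2 : ∀ ζ < η, rec U A B ζ = rec U A' B' ζ := by
      intro ζ hζ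
      by_contra hcon
      exact absurd (csInf_le' (show ζ ∈ {ζ : Ordinal.{0} | rec U A B ζ ≠ rec U A' B' ζ} from hcon))
        (not_le.2 hζ)
    have hηδ : η ≤ δ := (csInf_le' (show ζ₀ ∈ {ζ : Ordinal.{0} | rec U A B ζ ≠ rec U A' B' ζ}
      from hζ₀')).trans hζ₀
    obtain ⟨hle, hne12⟩ := first_diff hU hA hB hη2 hη1
    have hPη : (P A B η).Nonempty := hδ.mono (P_anti hηδ)
    have hPη' : (P A' B' η).Nonempty := by rwa [← P_eq_of_rec hU hη2]
    refine ⟨η, hPη', ?_, ?_⟩
    · intro ζ hζ
      rw [← hη2 ζ hζ]
      exact hag ζ (hζ.trans_le hηδ)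
    · apply key hz (rec_good hU hs hPη) (rec_good hU hs' hPη') hle hne12
      rcases hηδ.eq_or_lt with h | h
      · right
        rw [h]
        exact hJ
      · left
        exact hag η h

/-- the sequences of records differ if the pairs are incompatible -/
theorem exists_diff (hU : Net U) (hs : Star A B) {A' B' : Set X} {x : X} (hx : x ∈ B)
    (hx' : x ∈ A') : ∃ η, rec U A B η ≠ rec U A' B' η := by
  by_contra hcon
  push Not at hcon
  have hmem : ∀ η, x ∈ P A B η := by
    intro η
    induction η using WellFoundedLT.induction with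
    | ind η ih =>
      rw [mem_P]
      intro ζ hζ
      refine ⟨?_, subset_closure ⟨ih ζ hζ, hx⟩⟩
      have e : closure (P A B ζ ∩ A) = closure (P A' B' ζ ∩ A') :=
        code_inj hU isClosed_closure isClosed_closure (by rw [← rec1, ← rec1, hcon])
      rw [e]
      refine subset_closure ⟨?_, hx'⟩
      rw [← P_eq_of_rec hU fun ξ _ => hcon ξ]
      exact ih ζ hζ
  obtain ⟨η, hη⟩ := exists_empty hs
  have := hmem η
  rw [hη] at this
  exact this

open Classical in
/-- the code of a pair -/
noncomputable def zz (U : ℕ → Set X) (A B : Set X) : W := fun n =>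
  if h : ∃ η, rec U A B η 0 n = true ∧ rec U A B η 3 n = false then rec U A B h.choose
  else fun _ _ => false

theorem zz_eq {η : Ordinal.{0}} {n : ℕ} (h0 : rec U A B η 0 n = true)
    (h3 : rec U A B η 3 n = false) : zz U A B n = rec U A B η := by
  have h : ∃ η, rec U A B η 0 n = true ∧ rec U A B η 3 n = false := ⟨η, h0, h3⟩
  unfold zz
  rw [dif_pos h]
  have := h.choose_spec
  rw [stage_unique this.1 this.2 h0 h3]

theorem zz_valid {n : ℕ} (h0 : zz U A B n 0 n = true) (h3 : zz U A B n 3 n = false) :
    ∃ η, rec U A B η 0 n = true ∧ rec U A B η 3 n = false ∧ zz U A B n = rec U A B η := by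
  by_cases h : ∃ η, rec U A B η 0 n = true ∧ rec U A B η 3 n = false
  · obtain ⟨η, h0, h3⟩ := h
    exact ⟨η, h0, h3, zz_eq h0 h3⟩
  · exfalso
    unfold zz at h0
    rw [dif_neg h] at h0
    simp at h0

theorem zz_mem (U : ℕ → Set X) (A B : Set X) : zz U A B ∈ Z := by
  refine ⟨?_, ?_, ?_⟩
  · intro n m h0 h3 h0m h3m
    obtain ⟨η, _, _, e⟩ := zz_valid h0 h3
    rw [e] at h0m h3m ⊢
    exact zz_eq h0m h3m
  · intro n m h0 h3 h0m h3m hnm
    obtain ⟨η, a0, a3, e⟩ := zz_valid h0 h3
    obtain ⟨ζ, b0, b3, e'⟩ := zz_valid h0m h3m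
    rw [e] at hnm
    rw [e']
    -- `m` survives the stage `η`
    have hlt : η < ζ := by
      by_contra hcon
      have hle : ζ ≤ η := not_lt.1 hcon
      rw [rec3] at hnm b3
      have := code_mono (P_anti (A := A) (B := B) (by gcongr : ζ + 1 ≤ η + 1)) m hnm
      rw [b3] at this
      simp at this
    by_contra hc
    have hc' : code U (P A B ζ) n = true := by simpa [rec0] using hc
    have := code_mono (P_anti (A := A) (B := B) (Order.add_one_le_iff.2 hlt)) n hc'
    rw [rec3] at a3
    rw [a3] at this
    simp at this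
  · intro n m h
    by_cases hh : ∃ η, rec U A B η 0 n = true ∧ rec U A B η 3 n = false
    · obtain ⟨η, h0, h3⟩ := hh
      rw [zz_eq h0 h3] at h ⊢
      exact rec3_imp h
    · unfold zz at h
      rw [dif_neg hh] at h
      simp at h

theorem S_ne (hU : Net U) (hs : Star A B) {A' B' : Set X} (hs' : Star A' B') (hA : A ⊆ A')
    (hB : B' ⊆ B) {x : X} (hx : x ∈ B) (hx' : x ∈ A') :
    zz U A B ∈ S U A' B' ∧ zz U A B ∉ S U A B := by
  have hlead : ∀ η, (P A B η).Nonempty → zz U A B (lead (rec U A B η)) = rec U A B η := by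
    intro η hη
    obtain ⟨h0, h3⟩ := lead_rec hU hs hη
    exact zz_eq h0 h3
  constructor
  · refine ⟨zz_mem _ _ _, ?_⟩
    have hne : {ζ : Ordinal.{0} | rec U A B ζ ≠ rec U A' B' ζ}.Nonempty :=
      exists_diff hU hs hx hx'
    set η := sInf {ζ : Ordinal.{0} | rec U A B ζ ≠ rec U A' B' ζ} with hη
    have hη1 : rec U A B η ≠ rec U A' B' η := csInf_mem hne
    have hη2 : ∀ ζ < η, rec U A B ζ = rec U A' B' ζ := by
      intro ζ hζ
      by_contra hcon
      exact absurd (csInf_le' (show ζ ∈ {ζ : Ordinal.{0} | rec U A B ζ ≠ rec U A' B' ζ} from hcon))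
        (not_le.2 hζ)
    obtain ⟨hle, hne12⟩ := first_diff hU hA hB hη2 hη1
    have hPeq := P_eq_of_rec hU hη2
    have hPη : (P A B η).Nonempty := by
      by_contra hcon
      rw [not_nonempty_iff_eq_empty] at hcon
      apply hne12
      have h' : P A' B' η = ∅ := by rw [← hPeq, hcon]
      constructor
      · rw [rec1, rec1, hcon, h']
        simp
      · rw [rec2, rec2, hcon, h']
        simp
    have hPη' : (P A' B' η).Nonempty := by rwa [← hPeq]
    refine ⟨η, hPη', ?_, ?_⟩
    · intro ζ hζ
      rw [← hη2 ζ hζ]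
      exact hlead ζ (hPη.mono (P_anti hζ.le))
    · exact key (zz_mem _ _ _) (rec_good hU hs hPη) (rec_good hU hs' hPη') hle hne12
        (Or.inl (hlead η hPη))
  · rintro ⟨-, η, hη, -, hJ⟩
    rw [hlead η hη] at hJ
    exact J_ne hJ rfl

end codes

end Pool.Agent.Q302.B1
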