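import Pool.Agent.Q302.B1Top

set_option autoImplicit false

open Set Topology Filter TopologicalSpace

namespace Pool.Agent.Q302.B1

/-- disjoint countable intersections of open sets in a Polish space are not both dense in a
nonempty closed set -/
theorem star_of_gδ {X : Type} [TopologicalSpace X] [PolishSpace X] {A B : Set X} (hA : IsGδ A)
    (hB : IsGδ B) (hd : Disjoint A B) : Star A B := by
  intro F hF hFA hFB
  by_contra hne
  obtain ⟨x, hx⟩ := nonempty_iff_ne_empty.2 hne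
  have : PolishSpace F := hF.polishSpace
  have hdense : ∀ {C : Set X}, F ⊆ closure (F ∩ C) → Dense ((↑) ⁻¹' C : Set F) := by
    intro C hC y
    rw [closure_subtype]
    have : ((↑) '' ((↑) ⁻¹' C : Set F) : Set X) = F ∩ C := by
      rw [Subtype.image_preimage_coe]
    rw [this]
    exact hC y.2
  have h1 : IsGδ ((↑) ⁻¹' A : Set F) := hA.preimage continuous_subtype_val
  have h2 : IsGδ ((↑) ⁻¹' B : Set F) := hB.preimage continuous_subtype_val
  have h3 := (hdense hFA).inter_of_Gδ h1 h2 (hdense hFB)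
  have : Nonempty F := ⟨⟨x, hx⟩⟩
  obtain ⟨y, hy⟩ := h3.nonempty
  exact disjoint_left.1 hd hy.1 hy.2

theorem exists_net {X : Type} [TopologicalSpace X] [SecondCountableTopology X] :
    ∃ U : ℕ → Set X, Net U := by
  obtain ⟨b, hb, -, hbb⟩ := exists_countable_basis X
  have hne : (insert ∅ b).Nonempty := ⟨∅, mem_insert _ _⟩
  obtain ⟨U, hU⟩ := (hb.insert ∅).exists_eq_range hne
  refine ⟨U, ?_⟩
  intro F hF x hx
  obtain ⟨v, hv, hxv, hvF⟩ := hbb.exists_subset_of_mem_open (show x ∈ Fᶜ from hx) hF.isOpen_compl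
  have : v ∈ range U := by rw [← hU]; exact mem_insert_of_mem _ hv
  obtain ⟨n, rfl⟩ := this
  exact ⟨n, hxv, disjoint_left.2 fun y hy hy' => hvF hy' hy⟩

/-- the function is a pointwise limit of continuous functions -/
def BaireOne (f : ℝ → ℝ) : Prop :=
  ∃ u : ℕ → ℝ → ℝ, (∀ n, Continuous (u n)) ∧ ∀ x, Tendsto (fun n => u n x) atTop (𝓝 (f x))

/-- the points where the function is at least `q i` -/
def Up (q : ℕ → ℝ) (f : ℝ → ℝ) : Set (ℕ × ℝ) := {y | q y.1 ≤ f y.2}

def Lo (p : ℕ → ℝ) (f : ℝ → ℝ) : Set (ℕ × ℝ) := {y | f y.2 ≤ p y.1}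

theorem isGδ_Lo {p : ℕ → ℝ} {f : ℝ → ℝ} (hf : BaireOne f) : IsGδ (Lo p f) := by
  obtain ⟨u, hu, hlim⟩ := hf
  have e : Lo p f = ⋂ k : ℕ, ⋂ N : ℕ, ⋃ n : ℕ, ⋃ (_ : N ≤ n),
      {y : ℕ × ℝ | u n y.2 < p y.1 + 1 / (k + 1)} := by
    ext y
    simp only [Lo, mem_ofPred_eq, mem_iInter, mem_iUnion, exists_prop]
    constructor
    · intro h k N
      have hk : (0 : ℝ) < 1 / (k + 1) := by positivity
      have h1 : f y.2 < p y.1 + 1 / (k + 1) := by linarith
      have h2 := (hlim y.2).eventually (gt_mem_nhds h1)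
      obtain ⟨M, hM⟩ := eventually_atTop.1 h2
      exact ⟨max N M, le_max_left _ _, hM _ (le_max_right _ _)⟩
    · intro h
      by_contra hcon
      push Not at hcon
      obtain ⟨k, hk⟩ := exists_nat_one_div_lt (show 0 < (f y.2 - p y.1) by linarith)
      have h1 : p y.1 + 1 / (k + 1) < f y.2 := by linarith
      have h2 := (hlim y.2).eventually (lt_mem_nhds h1)
      obtain ⟨M, hM⟩ := eventually_atTop.1 h2
      obtain ⟨n, hn, hn'⟩ := h k M
      have := hM n hn
      linarith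
  rw [e]
  refine IsGδ.iInter fun k => IsGδ.iInter fun N => IsOpen.isGδ ?_
  refine isOpen_iUnion fun n => isOpen_iUnion fun _ => ?_
  have hc1 : Continuous fun y : ℕ × ℝ => u n y.2 := (hu n).comp continuous_snd
  have hc2 : Continuous fun y : ℕ × ℝ => p y.1 + 1 / ((k : ℝ) + 1) :=
    ((continuous_of_discreteTopology (f := p)).comp continuous_fst).add continuous_const
  exact isOpen_lt hc1 hc2

theorem isGδ_Up {q : ℕ → ℝ} {f : ℝ → ℝ} (hf : BaireOne f) : IsGδ (Up q f) := by
  have h1 : BaireOne fun x => - f x := by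
    obtain ⟨u, hu, hlim⟩ := hf
    exact ⟨fun n x => - u n x, fun n => (hu n).neg, fun x => (hlim x).neg⟩
  have e : Up q f = Lo (fun i => - q i) fun x => - f x := by
    ext y
    simp [Up, Lo]
  rw [e]
  exact isGδ_Lo h1

theorem main : ∃ Φ : (ℝ → ℝ) → Set ℝ,
    (∀ f, BaireOne f → IsGδ (Φ f) ∧ IsGδ (Φ f)ᶜ) ∧
    ∀ f g, BaireOne f → BaireOne g → f < g → Φ g ⊂ Φ f := by
  obtain ⟨U, hU⟩ := exists_net (X := ℕ × ℝ)
  obtain ⟨e, he⟩ := exists_embedding
  obtain ⟨φ, hφ⟩ : ∃ φ : ℕ → ℚ × ℕ, Function.Surjective φ := exists_surjective_nat _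
  let p : ℕ → ℝ := fun i => (φ i).1
  let q : ℕ → ℝ := fun i => (φ i).1 + 1 / ((φ i).2 + 1)
  have hpq : ∀ i, p i < q i := by
    intro i
    have : (0 : ℝ) < 1 / ((φ i).2 + 1) := by positivity
    simp only [p, q]
    linarith
  have hstar : ∀ f, BaireOne f → Star (Up q f) (Lo p f) := by
    intro f hf
    refine star_of_gδ (isGδ_Up hf) (isGδ_Lo hf) ?_
    rw [disjoint_left]
    intro y hy hy'
    simp only [Up, Lo, mem_ofPred_eq] at hy hy'
    have := hpq y.1
    linarith
  refine ⟨fun f => (e '' S U (Up q f) (Lo p f))ᶜ, ?_, ?_⟩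
  · intro f hf
    exact (del_image he (del_S hU (hstar f hf))).compl
  · intro f g hf hg hfg
    obtain ⟨hle, x, hx⟩ := Pi.lt_def.1 hfg
    have hA : Up q f ⊆ Up q g := fun y hy => le_trans hy (hle y.2)
    have hB : Lo p g ⊆ Lo p f := fun y hy => le_trans (hle y.2) hy
    -- a pair of levels between the two values
    obtain ⟨k, hk⟩ := exists_nat_one_div_lt (show 0 < (g x - f x) / 2 by linarith)
    obtain ⟨r, hr1, hr2⟩ := exists_rat_btwn (show f x < f x + (g x - f x) / 2 by linarith)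
    obtain ⟨i, hi⟩ := hφ (r, k)
    have hpi : p i = r := by simp only [p, hi]
    have hqi : q i = r + 1 / (k + 1) := by simp only [q, hi]
    have h1 : (i, x) ∈ Lo p f := by
      simp only [Lo, mem_ofPred_eq, hpi]
      exact hr1.le
    have h2 : (i, x) ∈ Up q g := by
      simp only [Up, mem_ofPred_eq, hqi]
      linarith
    have hmono := S_mono hU (hstar f hf) (hstar g hg) hA hB
    obtain ⟨hz1, hz2⟩ := S_ne hU (hstar f hf) (hstar g hg) hA hB h1 h2
    refine ⟨compl_subset_compl.2 (image_mono hmono), ?_⟩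
    intro hcon
    obtain ⟨z, hz, hez⟩ := (compl_subset_compl.1 hcon) ⟨_, hz1, rfl⟩
    rw [he.injective hez] at hz
    exact hz2 hz

end Pool.Agent.Q302.B1
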