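import Pool.Agent.Q302.B1Core

set_option autoImplicit false

open Set Topology Filter TopologicalSpace

namespace Pool.Agent.Q302.B1

/-- ambiguous sets: both the set and its complement are countable intersections of open sets -/
def Del {Y : Type} [TopologicalSpace Y] (T : Set Y) : Prop := IsGδ T ∧ IsGδ Tᶜ

section del

variable {Y : Type} [TopologicalSpace Y] [MetrizableSpace Y]

theorem Del.of_closed {T : Set Y} (h : IsClosed T) : Del T := ⟨h.isGδ, h.isOpen_compl.isGδ⟩

theorem Del.of_open {T : Set Y} (h : IsOpen T) : Del T := ⟨h.isGδ, h.isClosed_compl.isGδ⟩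

omit [MetrizableSpace Y] in
theorem Del.compl {T : Set Y} (h : Del T) : Del Tᶜ := ⟨h.2, by rw [compl_compl]; exact h.1⟩

omit [MetrizableSpace Y] in
theorem Del.inter {T T' : Set Y} (h : Del T) (h' : Del T') : Del (T ∩ T') :=
  ⟨h.1.inter h'.1, by rw [compl_inter]; exact h.2.union h'.2⟩

omit [MetrizableSpace Y] in
theorem Del.union {T T' : Set Y} (h : Del T) (h' : Del T') : Del (T ∪ T') :=
  ⟨h.1.union h'.1, by rw [compl_union]; exact h.2.inter h'.2⟩

omit [MetrizableSpace Y] in
/-- a set with two countable decompositions into ambiguous sets -/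
theorem Del.of_unions {ι : Type*} [Countable ι] {T : Set Y} {a b : ι → Set Y}
    (ha : ∀ i, Del (a i)) (hb : ∀ i, Del (b i)) (h1 : T = ⋃ i, a i) (h2 : Tᶜ = ⋃ i, b i) :
    Del T := by
  constructor
  · have : T = ⋂ i, (b i)ᶜ := by rw [← compl_iUnion, ← h2, compl_compl]
    rw [this]
    exact IsGδ.iInter fun i => (hb i).2
  · have : Tᶜ = ⋂ i, (a i)ᶜ := by rw [← compl_iUnion, ← h1]
    rw [this]
    exact IsGδ.iInter fun i => (ha i).2

end del

theorem cont_coord (n : ℕ) (i : Fin 4) (m : ℕ) : Continuous fun z : W => z n i m := by fun_prop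

theorem isClopen_coord (n : ℕ) (i : Fin 4) (m : ℕ) (b : Bool) :
    IsClopen {z : W | z n i m = b} :=
  (isClopen_discrete {b}).preimage (cont_coord n i m)

theorem isClosed_rec_eq (n : ℕ) (r : Rec) : IsClosed {z : W | z n = r} :=
  isClosed_eq (continuous_apply n) continuous_const

theorem isClosed_rec_eq2 (n m : ℕ) : IsClosed {z : W | z m = z n} :=
  isClosed_eq (continuous_apply m) (continuous_apply n)

theorem isClosed_imp {p q : W → Prop} (hp : IsOpen {z | p z}) (hq : IsClosed {z | q z}) :
    IsClosed {z | p z → q z} := by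
  have : {z | p z → q z} = {z | p z}ᶜ ∪ {z | q z} := by
    ext z
    simp only [mem_ofPred_eq, mem_union, mem_compl_iff]
    tauto
  rw [this]
  exact hp.isClosed_compl.union hq

theorem isClosed_Z : IsClosed Z := by
  have e : Z = (⋂ n, ⋂ m, {z : W | z n 0 n = true → z n 3 n = false → z n 0 m = true →
      z n 3 m = false → z m = z n}) ∩ ((⋂ n, ⋂ m, {z : W | z n 0 n = true → z n 3 n = false →
      z m 0 m = true → z m 3 m = false → z n 3 m = true → z m 0 n = false}) ∩
      ⋂ n, ⋂ m, {z : W | z n 3 m = true → z n 1 m = true ∧ z n 2 m = true}) := by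
    ext z
    simp only [Z, mem_ofPred_eq, mem_inter_iff, mem_iInter]
  rw [e]
  refine IsClosed.inter ?_ (IsClosed.inter ?_ ?_)
  · refine isClosed_iInter fun n => isClosed_iInter fun m => ?_
    refine isClosed_imp (isClopen_coord _ _ _ _).2 ?_
    refine isClosed_imp (isClopen_coord _ _ _ _).2 ?_
    refine isClosed_imp (isClopen_coord _ _ _ _).2 ?_
    refine isClosed_imp (isClopen_coord _ _ _ _).2 ?_
    exact isClosed_rec_eq2 n m
  · refine isClosed_iInter fun n => isClosed_iInter fun m => ?_
    refine isClosed_imp (isClopen_coord _ _ _ _).2 ?_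
    refine isClosed_imp (isClopen_coord _ _ _ _).2 ?_
    refine isClosed_imp (isClopen_coord _ _ _ _).2 ?_
    refine isClosed_imp (isClopen_coord _ _ _ _).2 ?_
    refine isClosed_imp (isClopen_coord _ _ _ _).2 ?_
    exact (isClopen_coord _ _ _ _).1
  · refine isClosed_iInter fun n => isClosed_iInter fun m => ?_
    refine isClosed_imp (isClopen_coord _ _ _ _).2 ?_
    exact (isClopen_coord n 1 m true).1.inter (isClopen_coord n 2 m true).1

theorem isClosed_Le_left (n : ℕ) (r : Rec) : IsClosed {z : W | Le (z n) r} := by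
  have e : {z : W | Le (z n) r} = {z : W | z n 0 = r 0} ∩
      ((⋂ m, {z : W | z n 1 m = true → r 1 m = true}) ∩
        ⋂ m, {z : W | r 2 m = true → z n 2 m = true}) := by
    ext z
    simp only [Le, mem_ofPred_eq, mem_inter_iff, mem_iInter]
  rw [e]
  refine IsClosed.inter ?_ (IsClosed.inter ?_ ?_)
  · exact isClosed_eq (by fun_prop) continuous_const
  · refine isClosed_iInter fun m => ?_
    exact isClosed_imp (isClopen_coord _ _ _ _).2 isClosed_const
  · refine isClosed_iInter fun m => ?_
    exact isClosed_imp isOpen_const (isClopen_coord _ _ _ _).1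

theorem isClosed_Le_right (n : ℕ) (r : Rec) : IsClosed {z : W | Le r (z n)} := by
  have e : {z : W | Le r (z n)} = {z : W | r 0 = z n 0} ∩
      ((⋂ m, {z : W | r 1 m = true → z n 1 m = true}) ∩
        ⋂ m, {z : W | z n 2 m = true → r 2 m = true}) := by
    ext z
    simp only [Le, mem_ofPred_eq, mem_inter_iff, mem_iInter]
  rw [e]
  refine IsClosed.inter ?_ (IsClosed.inter ?_ ?_)
  · exact isClosed_eq continuous_const (by fun_prop)
  · refine isClosed_iInter fun m => ?_
    exact isClosed_imp isOpen_const (isClopen_coord _ _ _ _).1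
  · refine isClosed_iInter fun m => ?_
    exact isClosed_imp (isClopen_coord _ _ _ _).2 isClosed_const

theorem isClosed_Eq12 (n : ℕ) (r : Rec) : IsClosed {z : W | Eq12 (z n) r} := by
  have e : {z : W | Eq12 (z n) r} = {z : W | z n 1 = r 1} ∩ {z : W | z n 2 = r 2} := by
    ext z
    simp only [Eq12, mem_ofPred_eq, mem_inter_iff]
  rw [e]
  exact (isClosed_eq (by fun_prop) continuous_const).inter
    (isClosed_eq (by fun_prop) continuous_const)

theorem del_J (n : ℕ) (r : Rec) : Del {z : W | J r (z n)} := by
  by_cases hI : TypeI r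
  · have e : {z : W | J r (z n)} = {z : W | Le (z n) r} ∩ {z : W | Eq12 (z n) r}ᶜ := by
      ext z
      simp only [J, mem_ofPred_eq, mem_inter_iff, mem_compl_iff, hI, not_true_eq_false, false_and,
        or_false, true_and]
    rw [e]
    exact (Del.of_closed (isClosed_Le_left n r)).inter (Del.of_closed (isClosed_Eq12 n r)).compl
  · have e : {z : W | J r (z n)} = {z : W | Le r (z n)}ᶜ := by
      ext z
      simp only [J, mem_ofPred_eq, mem_compl_iff, hI, false_and, false_or, not_false_eq_true,
        true_and]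
    rw [e]
    exact (Del.of_closed (isClosed_Le_right n r)).compl

section

variable {X : Type} [TopologicalSpace X] {U : ℕ → Set X} {A B : Set X}

/-- the stages with a nonempty derivative are countable -/
theorem countable_stages (hU : Net U) (hs : Star A B) :
    Countable {η : Ordinal.{0} // (P A B η).Nonempty} := by
  have : Function.Injective fun η : {η : Ordinal.{0} // (P A B η).Nonempty} =>
      lead (rec U A B η.1) := by
    intro η ζ h
    obtain ⟨a0, a3⟩ := lead_rec hU hs η.2
    obtain ⟨b0, b3⟩ := lead_rec hU hs ζ.2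
    simp only at h
    rw [← h] at b0 b3
    exact Subtype.ext (stage_unique a0 a3 b0 b3)
  exact this.countable

theorem del_S (hU : Net U) (hs : Star A B) : Del (S U A B) := by
  have := countable_stages hU hs
  let O := {η : Ordinal.{0} // (P A B η).Nonempty}
  let ag : Ordinal.{0} → Set W := fun η =>
    {z | ∀ ζ < η, z (lead (rec U A B ζ)) = rec U A B ζ}
  have hag : ∀ η, IsClosed (ag η) := by
    intro η
    have e : ag η = ⋂ ζ, ⋂ (_ : ζ < η), {z : W | z (lead (rec U A B ζ)) = rec U A B ζ} := by
      ext z
      simp only [ag, mem_ofPred_eq, mem_iInter]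
    rw [e]
    exact isClosed_iInter fun ζ => isClosed_iInter fun _ => isClosed_rec_eq _ _
  let a : Option O → Set W := fun o => match o with
    | none => ∅
    | some η => Z ∩ (ag η.1 ∩ {z : W | J (rec U A B η.1) (z (lead (rec U A B η.1)))})
  let b : Option (Option O) → Set W := fun o => match o with
    | none => Zᶜ
    | some none => Z ∩ ⋂ η : O, {z : W | z (lead (rec U A B η.1)) = rec U A B η.1}
    | some (some η) => Z ∩ (ag η.1 ∩
        ({z : W | z (lead (rec U A B η.1)) = rec U A B η.1}ᶜ ∩
          {z : W | J (rec U A B η.1) (z (lead (rec U A B η.1)))}ᶜ))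
  have hZ : Del Z := Del.of_closed isClosed_Z
  have ha : ∀ o, Del (a o) := by
    intro o
    rcases o with _ | η
    · exact Del.of_closed isClosed_empty
    · exact hZ.inter ((Del.of_closed (hag _)).inter (del_J _ _))
  have hb : ∀ o, Del (b o) := by
    intro o
    rcases o with _ | o
    · exact hZ.compl
    rcases o with _ | η
    · exact hZ.inter (Del.of_closed (isClosed_iInter fun η => isClosed_rec_eq _ _))
    · exact hZ.inter ((Del.of_closed (hag _)).inter
        ((Del.of_closed (isClosed_rec_eq _ _)).compl.inter (del_J _ _).compl))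
  -- the description of the set
  have h1 : S U A B = ⋃ o : Option (Option O), (match o with | none => ∅ | some o => a o) := by
    ext z
    simp only [mem_iUnion]
    constructor
    · rintro ⟨hz, η, hη, hag', hJ⟩
      exact ⟨some (some ⟨η, hη⟩), hz, hag', hJ⟩
    · rintro ⟨o, ho⟩
      rcases o with _ | o
      · exact absurd ho (notMem_empty z)
      rcases o with _ | η
      · exact absurd ho (notMem_empty z)
      · exact ⟨ho.1, η.1, η.2, ho.2.1, ho.2.2⟩
  have h2 : (S U A B)ᶜ = ⋃ o : Option (Option O), b o := by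
    ext z
    simp only [mem_iUnion, mem_compl_iff]
    constructor
    · intro hz
      by_cases hzZ : z ∈ Z
      · by_cases hall : ∀ η : O, z (lead (rec U A B η.1)) = rec U A B η.1
        · exact ⟨some none, hzZ, mem_iInter.2 hall⟩
        · push Not at hall
          have hne : {η : Ordinal.{0} | (P A B η).Nonempty ∧
              z (lead (rec U A B η)) ≠ rec U A B η}.Nonempty := by
            obtain ⟨η, hη⟩ := hall
            exact ⟨η.1, η.2, hη⟩
          set δ := sInf {η : Ordinal.{0} | (P A B η).Nonempty ∧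
              z (lead (rec U A B η)) ≠ rec U A B η} with hδ
          have hδ1 : (P A B δ).Nonempty ∧ z (lead (rec U A B δ)) ≠ rec U A B δ := csInf_mem hne
          have hδ2 : ∀ ζ < δ, z (lead (rec U A B ζ)) = rec U A B ζ := by
            intro ζ hζ
            by_contra hcon
            exact absurd (csInf_le' (show ζ ∈ {η : Ordinal.{0} | (P A B η).Nonempty ∧
              z (lead (rec U A B η)) ≠ rec U A B η} from ⟨hδ1.1.mono (P_anti hζ.le), hcon⟩))
              (not_le.2 hζ)
          refine ⟨some (some ⟨δ, hδ1.1⟩), hzZ, hδ2, hδ1.2, ?_⟩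
          intro hJ
          exact hz ⟨hzZ, δ, hδ1.1, hδ2, hJ⟩
      · exact ⟨none, hzZ⟩
    · rintro ⟨o, ho⟩ ⟨hz, η, hη, hag', hJ⟩
      rcases o with _ | o
      · exact ho hz
      rcases o with _ | ζ
      · exact J_ne hJ (mem_iInter.1 ho.2 ⟨η, hη⟩)
      · obtain ⟨-, hag2, hne, hnJ⟩ := ho
        rcases lt_trichotomy η ζ.1 with h | h | h
        · exact J_ne hJ (hag2 η h)
        · rw [h] at hJ
          exact hnJ hJ
        · exact hne (hag' ζ.1 h)
  refine Del.of_unions (ι := Option (Option O)) (a := fun o => match o with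
    | none => ∅
    | some o => a o) (b := b) ?_ hb h1 h2
  intro o
  rcases o with _ | o
  · exact Del.of_closed isClosed_empty
  · exact ha o

end

/-! ### Transfer to the real line -/

theorem isGδ_image {Y Y' : Type} [TopologicalSpace Y] [TopologicalSpace Y'] [MetrizableSpace Y']
    {e : Y → Y'} (he : IsClosedEmbedding e) {T : Set Y} (hT : IsGδ T) : IsGδ (e '' T) := by
  rw [isGδ_iff_eq_iInter_nat] at hT
  obtain ⟨f, hf, rfl⟩ := hT
  have h : ∀ n, ∃ V : Set Y', IsOpen V ∧ e ⁻¹' V = f n := fun n =>
    he.isInducing.isOpen_iff.1 (hf n)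
  choose V hV hVe using h
  have e1 : e '' (⋂ n, f n) = range e ∩ ⋂ n, V n := by
    ext y
    simp only [mem_image, mem_iInter, mem_inter_iff, mem_range]
    constructor
    · rintro ⟨x, hx, rfl⟩
      refine ⟨⟨x, rfl⟩, fun n => ?_⟩
      have := hx n
      rw [← hVe n] at this
      exact this
    · rintro ⟨⟨x, rfl⟩, hx⟩
      refine ⟨x, fun n => ?_, rfl⟩
      rw [← hVe n]
      exact hx n
  rw [e1]
  exact he.isClosed_range.isGδ.inter (IsGδ.iInter_of_isOpen hV)

theorem del_image {Y Y' : Type} [TopologicalSpace Y] [TopologicalSpace Y'] [MetrizableSpace Y']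
    {e : Y → Y'} (he : IsClosedEmbedding e) {T : Set Y} (hT : Del T) : Del (e '' T) := by
  refine ⟨isGδ_image he hT.1, ?_⟩
  have : (e '' T)ᶜ = (range e)ᶜ ∪ e '' Tᶜ := by
    ext y
    simp only [mem_compl_iff, mem_image, mem_union, mem_range]
    constructor
    · intro h
      by_cases hy : ∃ x, e x = y
      · obtain ⟨x, rfl⟩ := hy
        exact Or.inr ⟨x, fun hx => h ⟨x, hx, rfl⟩, rfl⟩
      · exact Or.inl hy
    · rintro (h | ⟨x, hx, rfl⟩) ⟨x', hx', h'⟩
      · exact h ⟨x', h'⟩
      · rw [he.injective h'] at hx'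
        exact hx hx'
  rw [this]
  exact he.isClosed_range.isOpen_compl.isGδ.union (isGδ_image he hT.2)

/-- the space of codes embeds into the real line as a closed set -/
theorem exists_embedding : ∃ e : W → ℝ, IsClosedEmbedding e := by
  obtain ⟨f, -, hf, hfi⟩ :=
    (isClosed_univ : IsClosed (univ : Set ℝ)).exists_nat_bool_injection_of_not_countable
      (by
        intro h
        exact Cardinal.not_countable_real h)
  obtain ⟨φ⟩ : Nonempty (ℕ ≃ ℕ × Fin 4 × ℕ) := nonempty_equiv_of_countable
  refine ⟨fun z => f fun k => z (φ k).1 (φ k).2.1 (φ k).2.2, ?_⟩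
  refine Continuous.isClosedEmbedding ?_ ?_
  · refine hf.comp (continuous_pi fun k => cont_coord _ _ _)
  · intro z z' h
    have h1 := hfi h
    funext n i m
    have := congrFun h1 (φ.symm (n, i, m))
    simpa using this

end Pool.Agent.Q302.B1
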